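import Mathlib
import Pool.Agent.Results.MP_9afe8f_co.AreaExponent

set_option autoImplicit false

/-!
# Minimum weight grid drawings of trees: explicit area bounds

Every `n`-vertex tree of maximum degree at most five has a minimum weight drawing on a square grid
of area at most `2 ^ (n ^ 2 + 2 n + 12)`, for every `n`; and for every `n ≥ 4 * 10 ^ 7` there are such
trees all of whose minimum weight grid drawings have area at least `2 ^ (n ^ 2 / 10 ^ 15)`.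
-/

namespace Pool.Agent.Results.MP_9afe8f_co.ExplicitArea

open Pool.Agent.Results.MP_9afe8f_co.AreaExponent Pool.Agent.Helper745.Tree

theorem C0_le : C0 ≤ 97656 := by
  unfold C0
  have h : {l : List (Fin 5) | l.length ≤ 7} ⊆
      Set.range (fun p : (Σ k : Fin 8, Fin k → Fin 5) => List.ofFn p.2) := by
    intro l hl
    have hl' : l.length ≤ 7 := hl
    refine ⟨⟨⟨l.length, by omega⟩, l.get⟩, ?_⟩
    simp
  have h2 : (Set.range (fun p : (Σ k : Fin 8, Fin k → Fin 5) => List.ofFn p.2)).ncard ≤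
      Nat.card (Σ k : Fin 8, Fin k → Fin 5) := by
    rw [← Set.image_univ]
    refine (Set.ncard_image_le Set.finite_univ).trans ?_
    rw [Set.ncard_univ]
  have h3 : Nat.card (Σ k : Fin 8, Fin k → Fin 5) = 97656 := by
    rw [Nat.card_eq_fintype_card, Fintype.card_sigma]
    simp [Fin.sum_univ_succ]
  exact (Set.ncard_le_ncard h (Set.finite_range _)).trans (h2.trans h3.le)

/-- The explicit lower bound. -/
theorem lower_explicit (n : ℕ) (hn : 40000000 ≤ n) :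
    ∃ T : SimpleGraph (Fin n), T.IsTree ∧ (∀ v, (T.neighborSet v).ncard ≤ 5) ∧
      ∀ (W H : ℕ) (φ : Fin n → ℤ × ℤ), IsMinWeightDrawing T φ → FitsGrid W H φ →
        (2 : ℝ) ^ ((n : ℝ) ^ 2 / 10 ^ 15) ≤ (W : ℝ) * H := by
  obtain ⟨K, hK⟩ : ∃ K : ℕ, K = 4394520 := ⟨_, rfl⟩
  have hKC : 45 * C0 ≤ K := by have := C0_le; omega
  have hK0 : 0 < K := by omega
  have hKr : (0 : ℝ) < K := by exact_mod_cast hK0
  obtain ⟨m, hm⟩ : ∃ m : ℕ, m = n / K - 1 := ⟨_, rfl⟩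
  have h8 : 8 ≤ n / K := (Nat.le_div_iff_mul_le hK0).mpr (by omega)
  have hm7 : 7 ≤ m := by omega
  have h1 : K * (m + 1) ≤ n := by
    have : m + 1 = n / K := by omega
    rw [this]; exact Nat.mul_div_le n K
  have h1' : 45 * C0 * (m + 1) ≤ n := (Nat.mul_le_mul_right _ hKC).trans h1
  have h2 : n < K * (m + 2) := by
    have : m + 2 = n / K + 1 := by omega
    rw [this]; exact Nat.lt_mul_div_succ n hK0
  obtain ⟨T, L, f, hT, hd, hf⟩ := exists_tree n m h1'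
  refine ⟨T, hT, hd, ?_⟩
  intro W H φ hφ hW
  have h3 := area_lower hT hf hφ hW
  have h4 : (2 : ℝ) ^ (((m.choose 2 : ℕ) : ℝ) / 2) ≤ (3 / 2 : ℝ) ^ (m.choose 2) := by
    have e1 : (2 : ℝ) ^ (((m.choose 2 : ℕ) : ℝ) / 2) =
        ((2 : ℝ) ^ (1 / 2 : ℝ)) ^ (m.choose 2) := by
      rw [← Real.rpow_natCast, ← Real.rpow_mul (by norm_num)]
      congr 1; ring
    rw [e1]
    apply pow_le_pow_left₀ (by positivity)
    rw [← Real.sqrt_eq_rpow]
    apply Real.sqrt_le_iff.mpr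
    constructor
    · norm_num
    · norm_num
  have h5 : (2 : ℝ) ^ (((m.choose 2 : ℕ) : ℝ) / 2 - 1) ≤ (W : ℝ) * H := by
    rw [Real.rpow_sub_one (by norm_num)]
    linarith
  refine le_trans ?_ h5
  apply Real.rpow_le_rpow_of_exponent_le (by norm_num)
  have h6 : ((m.choose 2 : ℕ) : ℝ) = m * (m - 1) / 2 := Nat.cast_choose_two ℝ m
  rw [h6]
  have h7 : (7 : ℝ) ≤ m := by exact_mod_cast hm7
  have h9 : (n : ℝ) ≤ K * (m + 2) := by exact_mod_cast h2.le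
  have h10 : (n : ℝ) ^ 2 ≤ (K * (m + 2)) ^ 2 :=
    pow_le_pow_left₀ (Nat.cast_nonneg n) h9 2
  have hKv : (K : ℝ) = 4394520 := by rw [hK]; norm_num
  rw [hKv] at h10
  have h11 : (n : ℝ) ^ 2 / 10 ^ 15 ≤ ((m : ℝ) + 2) ^ 2 / 16 := by
    rw [div_le_div_iff₀ (by norm_num) (by norm_num)]
    nlinarith [sq_nonneg ((m : ℝ) + 2)]
  refine h11.trans ?_
  nlinarith

/-- The explicit upper bound. -/
theorem upper_explicit (n : ℕ) (T : SimpleGraph (Fin n)) (hT : T.IsTree)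
    (hdeg : ∀ v, (T.neighborSet v).ncard ≤ 5) :
    ∃ (W : ℕ) (φ : Fin n → ℤ × ℤ), IsMinWeightDrawing T φ ∧ FitsGrid W W φ ∧
      W * W ≤ 2 ^ (n ^ 2 + 2 * n + 12) := by
  obtain ⟨φ, h1, h2⟩ := exists_drawing T hT hdeg
  refine ⟨_, φ, h1, h2, ?_⟩
  have hexp : 4 * ((n / 2) ^ 2 + n / 2 + 3) ≤ n ^ 2 + 2 * n + 12 := by
    have h3 : 2 * (n / 2) ≤ n := Nat.mul_div_le n 2
    have h3' : (2 * (n / 2)) ^ 2 ≤ n ^ 2 := Nat.pow_le_pow_left h3 2
    rw [mul_pow] at h3'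
    omega
  calc 4 ^ ((n / 2) ^ 2 + n / 2 + 3) * 4 ^ ((n / 2) ^ 2 + n / 2 + 3)
      = 2 ^ (4 * ((n / 2) ^ 2 + n / 2 + 3)) := by
        rw [← mul_pow, pow_mul]
        norm_num
    _ ≤ 2 ^ (n ^ 2 + 2 * n + 12) := Nat.pow_le_pow_right (by norm_num) hexp

/-- (1) For every `n`, every `n`-vertex tree of maximum degree at most five has a minimum weight
drawing on a `W × W` grid with `W * W ≤ 2 ^ (n ^ 2 + 2 n + 12)`. (2) For every `n ≥ 4 * 10 ^ 7` there is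
such a tree all of whose minimum weight grid drawings have area at least `2 ^ (n ^ 2 / 10 ^ 15)`.
(3) The negated form of Q1: for every `c > 0` and all large `n`, all these trees have minimum weight
grid drawings of area less than `c * 2 ^ (n ^ 2) * 2 ^ (n ^ 2)`. -/
theorem result :
    (∀ (n : ℕ) (T : SimpleGraph (Fin n)), T.IsTree → (∀ v, (T.neighborSet v).ncard ≤ 5) →
      ∃ (W : ℕ) (φ : Fin n → ℤ × ℤ), IsMinWeightDrawing T φ ∧ FitsGrid W W φ ∧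
        W * W ≤ 2 ^ (n ^ 2 + 2 * n + 12)) ∧
    (∀ n : ℕ, 40000000 ≤ n →
      ∃ T : SimpleGraph (Fin n), T.IsTree ∧ (∀ v, (T.neighborSet v).ncard ≤ 5) ∧
        ∀ (W H : ℕ) (φ : Fin n → ℤ × ℤ), IsMinWeightDrawing T φ → FitsGrid W H φ →
          (2 : ℝ) ^ ((n : ℝ) ^ 2 / 10 ^ 15) ≤ (W : ℝ) * H) ∧
    (∀ c : ℝ, 0 < c → ∃ N : ℕ, ∀ n : ℕ, N ≤ n →
      ∀ T : SimpleGraph (Fin n), T.IsTree → (∀ v, (T.neighborSet v).ncard ≤ 5) →
        ∃ (W H : ℕ) (φ : Fin n → ℤ × ℤ), IsMinWeightDrawing T φ ∧ FitsGrid W H φ ∧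
          (W : ℝ) * (H : ℝ) < c * (2 ^ (n ^ 2) * 2 ^ (n ^ 2))) :=
  ⟨upper_explicit, lower_explicit, AreaExponent.result.2⟩

end Pool.Agent.Results.MP_9afe8f_co.ExplicitArea
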